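import Pool.Agent.H20.S6.Inst
import Pool.Agent.H59.Zar.Inst

/-!
# Section 7 of `db5e86_proof`: definitions
-/

set_option autoImplicit false

open scoped InnerProductSpace Topology ContDiff
open Set Filter

namespace Pool.Agent.H54.S7

open Pool.Agent.H91.GE Pool.Agent.H59.LV Pool.Agent.H59.ND Pool.Agent.H59.Zar

variable {E F : Type*} [NormedAddCommGroup E] [InnerProductSpace ℝ E] [FiniteDimensional ℝ E]
  [NormedAddCommGroup F] [InnerProductSpace ℝ F] [FiniteDimensional ℝ F]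

/-- The second fundamental form of the level sets of a submersion `f`. -/
noncomputable def II (f : E → F) (x a b : E) : E :=
  -(Rinv (fderiv ℝ f x) (fderiv ℝ (fderiv ℝ f) x a b))

/-- The curvature `⟨R(v, u) u, v'⟩` (Gauss equation). -/
noncomputable def Rm (f : E → F) (x u v v' : E) : ℝ :=
  ⟪II f x u u, II f x v v'⟫_ℝ - ⟪II f x u v, II f x u v'⟫_ℝ

/-- The sectional curvature depends on the point only. -/
def PC (F : Type*) [NormedAddCommGroup F] [InnerProductSpace ℝ F] [FiniteDimensional ℝ F]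
    (S : Set E) (kap : E → ℝ) : Prop :=
  ∀ x ∈ S, ∀ (O : Set E) (f : E → F), IsLoc S O f → x ∈ O →
    ∀ u ∈ ZT S x, ∀ v ∈ ZT S x, ∀ v' ∈ ZT S x,
      Rm f x u v v' = kap x * (⟪u, u⟫_ℝ * ⟪v, v'⟫_ℝ - ⟪u, v⟫_ℝ * ⟪u, v'⟫_ℝ)

/-- The function `kap` is constant along the geodesics. -/
def KC (Φ : ℝ → E × E → E × E) (S : Set E) (kap : E → ℝ) : Prop :=
  ∀ w ∈ UT S, ∀ t, kap (Φ t w).1 = kap w.1

/-- The points from which section 7 starts: good, `Y` is transverse and conformal near `w`, and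
`Y_w` projects onto the tangent space. -/
def Dpt (Φ : ℝ → E × E → E × E) (S : Set E) (w : E × E) : Prop :=
  w ∈ GoodPt (UT S) (RS Φ S) ∧
    (∀ᶠ w' in 𝓝[UT S] w, Pool.Agent.H20.S6.Scal (fun x => ZT S x) (RS Φ S) w') ∧
    ∀ η ∈ ZT S w.1, ∃ a ∈ Y (RS Φ S) w, a.1 = η

/-- The square of the length of the covariant derivative of a Jacobi field. -/
noncomputable def rr (A : E × E → E) (w K : E × E) : ℝ :=
  ‖K.2‖ ^ 2 - ‖(1 / 2 : ℝ) • fderiv ℝ A w ((0 : E), K.1)‖ ^ 2

end Pool.Agent.H54.S7
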