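import Pool.Agent.H54.S7.Defs

/-!
# 7A: the second fundamental form, Gauss and Weingarten
-/

set_option autoImplicit false
set_option linter.unusedSectionVars false
set_option linter.unusedVariables false

open scoped InnerProductSpace Topology ContDiff
open Set Filter

namespace Pool.Agent.H54.S7

open Pool.Agent.H91.GE Pool.Agent.H59.LV Pool.Agent.H59.ND Pool.Agent.H59.Zar

variable {E F : Type*} [NormedAddCommGroup E] [InnerProductSpace ℝ E] [FiniteDimensional ℝ E]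
  [NormedAddCommGroup F] [InnerProductSpace ℝ F] [FiniteDimensional ℝ F]
  {S : Set E} {A : E × E → E} {K K₂ : NNReal} {Φ : ℝ → E × E → E × E} {n : ℕ}

theorem f2_symm {O : Set E} {f : E → F} (hf : IsLoc S O f) {x : E} (hO : x ∈ O) (a b : E) :
    fderiv ℝ (fderiv ℝ f) x a b = fderiv ℝ (fderiv ℝ f) x b a :=
  ((hf.contDiffAt hO).isSymmSndFDerivAt (by
    rw [minSmoothness_of_isRCLikeNormedField]; exact two_le_top')) a b

theorem II_symm {O : Set E} {f : E → F} (hf : IsLoc S O f) {x : E} (hO : x ∈ O) (a b : E) :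
    II f x a b = II f x b a := by
  unfold II
  rw [f2_symm hf hO]

/-- The second fundamental form is normal. -/
theorem inner_II {O : Set E} {f : E → F} (hf : IsLoc S O f) {x : E} (hx : x ∈ S) (hO : x ∈ O)
    (a b : E) {e : E} (he : e ∈ ZT S x) : ⟪II f x a b, e⟫_ℝ = 0 := by
  unfold II
  rw [inner_neg_left, inner_Rinv _ ((mem_TS' hf hx hO).1 he), neg_zero]

theorem A_eq_II (h : GFlow F S A K K₂ Φ) {O : Set E} {f : E → F} (hf : IsLoc S O f) {w : E × E}
    (hw : w ∈ UT S) (hO : w.1 ∈ O) : A w = II f w.1 w.2 w.2 :=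
  h.field.eq w hw.1 (by rw [hw.2]; norm_num) O f hf hO

theorem dA_eq_II (h : GFlow F S A K K₂ Φ) {O : Set E} {f : E → F} (hf : IsLoc S O f) {w : E × E}
    (hw : w ∈ UT S) (hO : w.1 ∈ O) {u : E} (hu : u ∈ ZT S w.1) :
    (1 / 2 : ℝ) • fderiv ℝ A w (0, u) = II f w.1 w.2 u := by
  rw [dA_eq h hf hw hO hu, II, f2_symm hf hO, smul_neg, smul_smul]
  norm_num

theorem II_add_left (f : E → F) (x a b c : E) : II f x (a + b) c = II f x a c + II f x b c := by
  unfold II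
  rw [map_add, add_apply, map_add, neg_add]

theorem II_add_right (f : E → F) (x a b c : E) : II f x a (b + c) = II f x a b + II f x a c := by
  unfold II
  rw [map_add, map_add, neg_add]

/-- The second fundamental form does not depend on the local equation. -/
theorem II_indep (h : GFlow F S A K K₂ Φ) {O O' : Set E} {f g : E → F} (hf : IsLoc S O f)
    (hg : IsLoc S O' g) {x : E} (hx : x ∈ S) (hO : x ∈ O) (hO' : x ∈ O') {a b : E}
    (ha : a ∈ ZT S x) (hb : b ∈ ZT S x) : II f x a b = II g x a b := by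
  have hd : ∀ c ∈ ZT S x, II f x c c = II g x c c := fun c hc =>
    Acc_eq hf hg hO hO' ((mem_TS h.sub hx).1 hc)
  have h1 := hd _ (Submodule.add_mem _ ha hb)
  rw [II_add_left, II_add_left, II_add_right, II_add_right, II_add_right, II_add_right,
    hd a ha, hd b hb, II_symm hf hO b a, II_symm hg hO' b a] at h1
  have h2 : (2 : ℝ) • II f x a b = (2 : ℝ) • II g x a b := by
    rw [two_smul, two_smul]
    have h3 : II f x a b + II f x a b = (II g x a a + II f x a b + (II f x a b + II g x b b))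
        - II g x a a - II g x b b := by abel
    rw [h3, h1]
    abel
  have h3 := congrArg (fun z => (1 / 2 : ℝ) • z) h2
  simpa [smul_smul] using h3

/-- The derivative of the tangential part of a fixed tangent vector. -/
theorem hasFDerivAt_proj {O : Set E} {f : E → F} (hf : IsLoc S O f) {x : E} (hO : x ∈ O) {e : E}
    (he : fderiv ℝ f x e = 0) :
    ∃ D : E →L[ℝ] E, (∀ a, D a = II f x a e) ∧
      HasFDerivAt (fun y => e - Rinv (fderiv ℝ f y) (fderiv ℝ f y e)) D x := by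
  have hf1 : ContDiffAt ℝ ∞ (fderiv ℝ f) x := (hf.contDiffAt hO).fderiv_right (by norm_num)
  have h1 : HasFDerivAt (fderiv ℝ f) (fderiv ℝ (fderiv ℝ f) x) x :=
    (hf1.differentiableAt (by simp)).hasFDerivAt
  have h2 : ContDiffAt ℝ ∞ (fun y => Rinv (fderiv ℝ f y)) x :=
    ContDiffAt.comp x (g := Rinv) (contDiffAt_Rinv (hf.surj x hO)) hf1
  have h3 : HasFDerivAt (fun y => Rinv (fderiv ℝ f y)) (fderiv ℝ (fun y => Rinv (fderiv ℝ f y)) x)
      x := (h2.differentiableAt (by simp)).hasFDerivAt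
  have h4 := h1.clm_apply (hasFDerivAt_const e x)
  have h5 := h3.clm_apply h4
  have h6 := (hasFDerivAt_const e x).sub h5
  refine ⟨_, fun a => ?_, h6⟩
  simp [he, II]

theorem proj_mem {O : Set E} {f : E → F} (hf : IsLoc S O f) {y : E} (hO : y ∈ O) (hy : y ∈ S)
    (e : E) : e - Rinv (fderiv ℝ f y) (fderiv ℝ f y e) ∈ ZT S y := by
  rw [mem_TS' hf hy hO, map_sub, comp_Rinv (hf.surj y hO), sub_self]

/-- The lemma of Gauss. -/
theorem gauss (h : GFlow F S A K K₂ Φ) {O : Set E} {f : E → F} (hf : IsLoc S O f) {w a : E × E}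
    (hw : w ∈ UT S) (hO : w.1 ∈ O) (ha : a ∈ ZT (UT S) w) {e : E} (he : e ∈ ZT S w.1) :
    ⟪fderiv ℝ A w a, e⟫_ℝ = -⟪A w, II f w.1 a.1 e⟫_ℝ := by
  have hx := fst_mem_TSet hw.1
  have he0 := (mem_TS' hf hx hO).1 he
  have hU : {q : E × E | q.1 ∈ O} ∈ 𝓝 w := (hf.isOpen.preimage continuous_fst).mem_nhds hO
  have hs : ContDiffOn ℝ ∞ (fun q : E × E =>
      ⟪A q, e - Rinv (fderiv ℝ f q.1) (fderiv ℝ f q.1 e)⟫_ℝ) {q : E × E | q.1 ∈ O} := by
    intro q hq
    have hq' : q.1 ∈ O := hq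
    have hf1 : ContDiffAt ℝ ∞ (fderiv ℝ f) q.1 := (hf.contDiffAt hq').fderiv_right (by norm_num)
    have hf2 : ContDiffAt ℝ ∞ (fun q : E × E => fderiv ℝ f q.1) q :=
      ContDiffAt.comp q (g := fderiv ℝ f) hf1 contDiffAt_fst
    have h2 : ContDiffAt ℝ ∞ (fun q : E × E => Rinv (fderiv ℝ f q.1)) q :=
      ContDiffAt.comp q (g := Rinv) (contDiffAt_Rinv (hf.surj _ hq')) hf2
    have h3 := h2.clm_apply (hf2.clm_apply (contDiffAt_const (c := e)))
    exact (h.field.smooth.contDiffAt.inner ℝ (contDiffAt_const.sub h3)).contDiffWithinAt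
  have hz := fderiv_eq_zero hU hs (fun q hq hqO => ?_) ha
  · obtain ⟨D, hD, hDd⟩ := hasFDerivAt_proj hf hO he0
    have h1 : HasFDerivAt A (fderiv ℝ A w) w :=
      (h.field.smooth.differentiable (by simp) w).hasFDerivAt
    have h2 : HasFDerivAt (fun q : E × E => e - Rinv (fderiv ℝ f q.1) (fderiv ℝ f q.1 e))
        (D ∘L ContinuousLinearMap.fst ℝ E E) w :=
      HasFDerivAt.comp w (g := fun y => e - Rinv (fderiv ℝ f y) (fderiv ℝ f y e)) hDd hasFDerivAt_fst
    have h3 := h1.inner ℝ h2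
    rw [h3.fderiv] at hz
    have h4 : ⟪A w, D a.1⟫_ℝ + ⟪fderiv ℝ A w a, e - Rinv (fderiv ℝ f w.1) (fderiv ℝ f w.1 e)⟫_ℝ
        = 0 := by
      simpa using hz
    rw [he0, map_zero, sub_zero, hD] at h4
    linarith
  · exact inner_A h hq (proj_mem hf hqO (fst_mem_TSet hq.1) e)

/-- Weingarten. -/
theorem weingarten {O : Set E} {f : E → F} (hf : IsLoc S O f) {y ν : ℝ → E} {y' ν' : E} {t : ℝ}
    (hy : HasDerivAt y y' t) (hyS : ∀ᶠ s in 𝓝 t, y s ∈ S) (hν : HasDerivAt ν ν' t)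
    (hn : ∀ᶠ s in 𝓝 t, ∀ e ∈ ZT S (y s), ⟪ν s, e⟫_ℝ = 0) (hO : y t ∈ O) {e : E}
    (he : e ∈ ZT S (y t)) : ⟪ν', e⟫_ℝ = -⟪ν t, II f (y t) y' e⟫_ℝ := by
  have he0 := (mem_TS' hf hyS.self_of_nhds hO).1 he
  obtain ⟨D, hD, hDd⟩ := hasFDerivAt_proj hf hO he0
  have h1 := hDd.comp_hasDerivAt t hy
  have h2 := hν.inner ℝ h1
  have hyO : ∀ᶠ s in 𝓝 t, y s ∈ O :=
    hy.continuousAt.preimage_mem_nhds (hf.isOpen.mem_nhds hO)
  have h3 : (fun s => ⟪ν s, ((fun y => e - Rinv (fderiv ℝ f y) (fderiv ℝ f y e)) ∘ y) s⟫_ℝ)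
      =ᶠ[𝓝 t] fun _ => 0 := by
    filter_upwards [hyS, hn, hyO] with s hs1 hs2 hs3
    exact hs2 _ (proj_mem hf hs3 hs1 e)
  have h4 := h2.unique ((hasDerivAt_const t (0 : ℝ)).congr_of_eventuallyEq h3)
  have h5 : ⟪ν t, D y'⟫_ℝ + ⟪ν', e - Rinv (fderiv ℝ f (y t)) (fderiv ℝ f (y t) e)⟫_ℝ = 0 := h4
  rw [he0, map_zero, sub_zero, hD] at h5
  linarith

end Pool.Agent.H54.S7
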