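import Pool.Agent.H54.S7.Ode

/-!
# 7E (3): the curvature is not negative
-/

set_option autoImplicit false
set_option linter.unusedSectionVars false
set_option linter.unusedVariables false

open scoped InnerProductSpace Topology ContDiff
open Set Filter

namespace Pool.Agent.H54.S7

open Pool.Agent.H91.GE Pool.Agent.H59.LV Pool.Agent.H59.ND Pool.Agent.H59.Zar

variable {E F : Type*} [NormedAddCommGroup E] [InnerProductSpace ℝ E] [FiniteDimensional ℝ E]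
  [NormedAddCommGroup F] [InnerProductSpace ℝ F] [FiniteDimensional ℝ F]
  {S : Set E} {A : E × E → E} {K K₂ : NNReal} {Φ : ℝ → E × E → E × E} {n : ℕ}

/-- A linear functional on a space of dimension at least two has a nonzero zero. -/
theorem exists_perp {T : Submodule ℝ E} (hT : 2 ≤ Module.finrank ℝ T) (v : E) :
    ∃ η ∈ T, η ≠ 0 ∧ ⟪v, η⟫_ℝ = 0 := by
  let φ : T →ₗ[ℝ] ℝ := (innerSL ℝ v).toLinearMap.domRestrict T
  have h1 := LinearMap.finrank_range_add_finrank_ker φ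
  have h2 : Module.finrank ℝ (LinearMap.range φ) ≤ 1 := by
    have := Submodule.finrank_le (LinearMap.range φ)
    simpa using this
  have h3 : LinearMap.ker φ ≠ ⊥ := by
    intro h0
    rw [h0, finrank_bot] at h1
    omega
  obtain ⟨η, hη, hη0⟩ := Submodule.exists_mem_ne_zero_of_ne_bot h3
  refine ⟨η, η.2, fun h0 => hη0 (Subtype.ext h0), ?_⟩
  exact hη

theorem inner_split (a b : E × E) :
    ⟪a.1, a.2⟫_ℝ - ⟪b.1, b.2⟫_ℝ = ⟪(a - b).1, a.2⟫_ℝ + ⟪b.1, (a - b).2⟫_ℝ := by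
  rw [Prod.fst_sub, Prod.snd_sub, inner_sub_left, inner_sub_right]
  ring

/-- The second fundamental form is continuous. -/
theorem II_cont {O : Set E} {f : E → F} (hf : IsLoc S O f) {x₀ : E} (hO : x₀ ∈ O) {u v : E → E}
    (hu : ContinuousAt u x₀) (hv : ContinuousAt v x₀) :
    ContinuousAt (fun x => II f x (u x) (v x)) x₀ := by
  have h1 : ContDiffAt ℝ ∞ (fderiv ℝ f) x₀ :=
    (contDiffAt_of_open hf.isOpen hf.smooth hO).fderiv_right (by norm_num)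
  have h2 : ContinuousAt (fderiv ℝ (fderiv ℝ f)) x₀ :=
    (h1.fderiv_right (m := ∞) (by norm_num)).continuousAt
  have h3 : ContinuousAt (fun x => Rinv (fderiv ℝ f x)) x₀ :=
    ContinuousAt.comp (g := Rinv) (contDiffAt_Rinv (n := ∞) (hf.surj x₀ hO)).continuousAt
      h1.continuousAt
  exact (h3.clm_apply ((h2.clm_apply hu).clm_apply hv)).neg

/-- The projection onto the tangent space. -/
noncomputable def Pt (f : E → F) (x a : E) : E := a - Rinv (fderiv ℝ f x) (fderiv ℝ f x a)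

theorem Pt_mem {O : Set E} {f : E → F} (hf : IsLoc S O f) {x : E} (hx : x ∈ S) (hO : x ∈ O)
    (a : E) : Pt f x a ∈ ZT S x := by
  rw [mem_TS' hf hx hO]
  show fderiv ℝ f x (a - Rinv (fderiv ℝ f x) (fderiv ℝ f x a)) = 0
  rw [map_sub, comp_Rinv (hf.surj x hO), sub_self]

theorem Pt_self {O : Set E} {f : E → F} (hf : IsLoc S O f) {x : E} (hx : x ∈ S) (hO : x ∈ O)
    {a : E} (ha : a ∈ ZT S x) : Pt f x a = a := by
  have h1 := (mem_TS' hf hx hO).1 ha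
  show a - Rinv (fderiv ℝ f x) (fderiv ℝ f x a) = a
  rw [h1, map_zero, sub_zero]

theorem Pt_cont {O : Set E} {f : E → F} (hf : IsLoc S O f) {x₀ : E} (hO : x₀ ∈ O) (a : E) :
    ContinuousAt (fun x => Pt f x a) x₀ := by
  have h1 : ContDiffAt ℝ ∞ (fderiv ℝ f) x₀ :=
    (contDiffAt_of_open hf.isOpen hf.smooth hO).fderiv_right (by norm_num)
  have h3 : ContinuousAt (fun x => Rinv (fderiv ℝ f x)) x₀ :=
    ContinuousAt.comp (g := Rinv) (contDiffAt_Rinv (n := ∞) (hf.surj x₀ hO)).continuousAt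
      h1.continuousAt
  exact continuousAt_const.sub (h3.clm_apply (h1.continuousAt.clm_apply continuousAt_const))

/-- The function `kap` is continuous on `S`. -/
theorem kap_cont (h : GFlow F S A K K₂ Φ) (hdim : Module.finrank ℝ E = Module.finrank ℝ F + n)
    (hn : 2 ≤ n) {kap : E → ℝ} (hk : PC F S kap) : ContinuousOn kap S := by
  intro x₀ hx₀
  obtain ⟨O, hO, f, hf⟩ := h.sub x₀ hx₀
  have hfr := finrank_TS hdim h.sub hx₀
  obtain ⟨u₀, hu₀, hu0, -⟩ := exists_perp (T := ZT S x₀) (by omega) 0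
  obtain ⟨v₀, hv₀, hv0, huv⟩ := exists_perp (T := ZT S x₀) (by omega) u₀
  set u : E → E := fun x => Pt f x u₀ with hu
  set v : E → E := fun x => Pt f x v₀ with hv
  have huc : ContinuousAt u x₀ := Pt_cont hf hO u₀
  have hvc : ContinuousAt v x₀ := Pt_cont hf hO v₀
  set g : E → ℝ := fun x => Rm f x (u x) (v x) (v x) with hg
  set d : E → ℝ := fun x => ⟪u x, u x⟫_ℝ * ⟪v x, v x⟫_ℝ - ⟪u x, v x⟫_ℝ * ⟪u x, v x⟫_ℝ with hd
  have hgc : ContinuousAt g x₀ :=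
    ((II_cont hf hO huc huc).inner (II_cont hf hO hvc hvc)).sub
      ((II_cont hf hO huc hvc).inner (II_cont hf hO huc hvc))
  have hdc : ContinuousAt d x₀ :=
    ((huc.inner huc).mul (hvc.inner hvc)).sub ((huc.inner hvc).mul (huc.inner hvc))
  have hd0 : d x₀ ≠ 0 := by
    have h1 : u x₀ = u₀ := Pt_self hf hx₀ hO hu₀
    have h2 : v x₀ = v₀ := Pt_self hf hx₀ hO hv₀
    rw [hd]
    simp only
    rw [h1, h2, huv, mul_zero, sub_zero]
    exact mul_ne_zero (inner_self_ne_zero.2 hu0) (inner_self_ne_zero.2 hv0)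
  have hq : ContinuousAt (fun x => g x / d x) x₀ := hgc.div hdc hd0
  have hev : ∀ᶠ x in 𝓝[S] x₀, kap x = g x / d x := by
    have h1 : ∀ᶠ x in 𝓝 x₀, d x ≠ 0 := hdc.eventually_ne hd0
    filter_upwards [self_mem_nhdsWithin, nhdsWithin_le_nhds h1,
      nhdsWithin_le_nhds (hf.isOpen.mem_nhds hO)] with x hxS hdx hxO
    have h2 := hk x hxS O f hf hxO (u x) (Pt_mem hf hxS hxO _) (v x) (Pt_mem hf hxS hxO _) (v x)
      (Pt_mem hf hxS hxO _)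
    have h3 : g x = kap x * d x := h2
    rw [h3, mul_div_cancel_right₀ _ hdx]
  exact hq.continuousWithinAt.congr_of_eventuallyEq hev (hev.self_of_nhdsWithin hx₀)

/-- At a point `w` of `Dpt`: take `κ ∈ Y_w`, `κ.1 ⊥ w.2`, `κ ≠ 0`. If `kap w.1 < 0` then
`q' = r - kap p` is nonnegative and positive on `[0, 1]` (uniformly near `w`), but the exact returns
`(w', Φ T w')`, `T > 1` near `(w, w)` have `D Φ_T κ` near `κ` (`H20.S6.near_id`). -/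
theorem kap_nonneg_of_Dpt (h : GFlow F S A K K₂ Φ)
    (hdim : Module.finrank ℝ E = Module.finrank ℝ F + n)
    (hn : 2 ≤ n) {kap : E → ℝ} (hk : PC F S kap) (hc : KC Φ S kap) {w : E × E}
    (hw : Dpt Φ S w) : 0 ≤ kap w.1 := by
  by_contra hneg
  push Not at hneg
  obtain ⟨hgood, hscal, hfull⟩ := hw
  have hwU : w ∈ UT S := hgood.1
  have hR := retRel h hdim
  have hG := Pool.Agent.H20.S6.geo h (by omega : Module.finrank ℝ F ≤ Module.finrank ℝ E)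
  have hxS : w.1 ∈ S := fst_mem_TSet hwU.1
  -- the vector `κ₀`
  have hfr := finrank_TS hdim h.sub hxS
  obtain ⟨η, hηT, hη0, hηp⟩ := exists_perp (T := ZT S w.1) (by omega) w.2
  obtain ⟨κ₀, hκ₀Y, hκ₀1⟩ := hfull η hηT
  obtain ⟨Q, ⟨O, hO, hQs⟩, hQ⟩ := hR.exists_projY hgood
  have hQc : ContinuousAt Q w := (hQs.contDiffAt hO).continuousAt
  have hAc : Continuous A := h.field.smooth.continuous
  set κ : E × E → E × E := fun w' => Q w' κ₀ - ⟪w'.2, (Q w' κ₀).1⟫_ℝ • (w'.2, A w') with hκ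
  have hκc : ContinuousAt κ w := by
    have h1 : ContinuousAt (fun w' => Q w' κ₀) w := hQc.clm_apply continuousAt_const
    have h2 : ContinuousAt (fun w' : E × E => ⟪w'.2, (Q w' κ₀).1⟫_ℝ) w :=
      continuousAt_snd.inner h1.fst
    exact h1.sub (h2.smul (continuousAt_snd.prodMk hAc.continuousAt))
  have hQ0 := hQ.self_of_nhdsWithin hwU
  have hκw : κ w = κ₀ := by
    rw [hκ]
    simp only
    rw [hQ0.2 κ₀ hκ₀Y, hκ₀1, hηp, zero_smul, sub_zero]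
  have hκY : ∀ᶠ w' in 𝓝[UT S] w, κ w' ∈ Y (RS Φ S) w' ∧ ⟪w'.2, (κ w').1⟫_ℝ = 0 := by
    filter_upwards [hQ, self_mem_nhdsWithin] with w' h1 h2
    refine ⟨Submodule.sub_mem _ (h1.1 κ₀) (Submodule.smul_mem _ _ (X_mem_Y h hdim h2)), ?_⟩
    show ⟪w'.2, (Q w' κ₀).1 - ⟪w'.2, (Q w' κ₀).1⟫_ℝ • w'.2⟫_ℝ = 0
    rw [inner_sub_right, inner_smul_right, real_inner_self_eq_norm_sq, show ‖w'.2‖ = 1 from h2.2]
    ring
  -- the function `q`
  set q : E × E → ℝ → ℝ := fun w' t =>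
    ⟪(fderiv ℝ (Φ t) w' (κ w')).1, (fderiv ℝ (Φ t) w' (κ w')).2⟫_ℝ with hq
  have hqd : ∀ w' ∈ UT S, κ w' ∈ Y (RS Φ S) w' → ⟪w'.2, (κ w').1⟫_ℝ = 0 → ∀ t,
      HasDerivAt (q w') (rr A (Φ t w') (fderiv ℝ (Φ t) w' (κ w'))
        - kap w'.1 * ‖(fderiv ℝ (Φ t) w' (κ w')).1‖ ^ 2) t := by
    intro w' hw' h1 h2 t
    have h3 := deriv_q h hk hw' (hR.Y_le hw' h1) h2 t
    rw [hc w' hw' t] at h3
    exact h3
  have hmono : ∀ w' ∈ UT S, κ w' ∈ Y (RS Φ S) w' → ⟪w'.2, (κ w').1⟫_ℝ = 0 → kap w'.1 < 0 →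
      Monotone (q w') := by
    intro w' hw' h1 h2 h3
    refine monotone_of_deriv_nonneg (fun t => (hqd w' hw' h1 h2 t).differentiableAt) fun t => ?_
    rw [(hqd w' hw' h1 h2 t).deriv]
    have h4 := (rr_nonneg h (flow_mem_UT h hw' t) (flow_ZTU_mem h (hR.Y_le hw' h1) t)).1
    have h5 : kap w'.1 * ‖(fderiv ℝ (Φ t) w' (κ w')).1‖ ^ 2 ≤ 0 :=
      mul_nonpos_of_nonpos_of_nonneg h3.le (by positivity)
    linarith
  have hκYw := hκY.self_of_nhdsWithin hwU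
  have hg0 : q w 0 < q w 1 := by
    have h1 := hqd w hwU hκYw.1 hκYw.2 0
    have h2 : 0 < rr A (Φ 0 w) (fderiv ℝ (Φ 0) w (κ w))
        - kap w.1 * ‖(fderiv ℝ (Φ 0) w (κ w)).1‖ ^ 2 := by
      have h4 := (rr_nonneg h (flow_mem_UT h hwU 0) (flow_ZTU_mem h (hR.Y_le hwU hκYw.1) 0)).1
      have h5 : 0 < ‖(fderiv ℝ (Φ 0) w (κ w)).1‖ := by
        rw [fderiv_flow_zero h, hκw, hκ₀1]
        exact norm_pos_iff.2 hη0
      have h6 : kap w.1 * ‖(fderiv ℝ (Φ 0) w (κ w)).1‖ ^ 2 < 0 :=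
        mul_neg_of_neg_of_pos hneg (by positivity)
      linarith
    have h3 := hasDerivAt_iff_tendsto_slope.1 h1
    have h4 : ∀ᶠ t in 𝓝[≠] (0 : ℝ), 0 < slope (q w) 0 t := h3.eventually_const_lt h2
    have h5 : ∀ᶠ t in 𝓝[>] (0 : ℝ), 0 < slope (q w) 0 t :=
      h4.filter_mono (nhdsWithin_mono _ fun t ht => (ne_of_gt ht))
    have h6 : ∀ᶠ t in 𝓝[>] (0 : ℝ), t < 1 :=
      nhdsWithin_le_nhds (Iio_mem_nhds zero_lt_one)
    obtain ⟨t, ht1, ht2, ht3⟩ := (h5.and (h6.and self_mem_nhdsWithin)).exists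
    have ht3' : 0 < t := ht3
    rw [slope_def_field, sub_zero, lt_div_iff₀ ht3', zero_mul, sub_pos] at ht1
    exact ht1.trans_le (hmono w hwU hκYw.1 hκYw.2 hneg ht2.le)
  -- continuity of `q · 1 - q · 0`
  have hqc : ∀ t, ContinuousAt (fun w' => q w' t) w := by
    intro t
    have h1 : ContinuousAt (fun w' => fderiv ℝ (Φ t) w') w :=
      ((contDiff_flow h t).continuous_fderiv (by simp)).continuousAt
    have h2 : ContinuousAt (fun w' => fderiv ℝ (Φ t) w' (κ w')) w := h1.clm_apply hκc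
    exact h2.fst.inner h2.snd
  set g : ℝ := q w 1 - q w 0 with hg
  have hgp : 0 < g := sub_pos.2 hg0
  have hM0 : 0 ≤ ‖κ₀‖ := norm_nonneg _
  set M : ℝ := ‖κ₀‖ + 1 with hM
  have hMp : 0 < M := by positivity
  obtain ⟨ε, hε0, hε1, hε2⟩ : ∃ ε : ℝ, 0 < ε ∧ ε ≤ 1 ∧ 3 * ε * M ^ 2 < g / 2 := by
    refine ⟨min 1 (g / (12 * M ^ 2)), by positivity, min_le_left _ _, ?_⟩
    have h1 : min 1 (g / (12 * M ^ 2)) ≤ g / (12 * M ^ 2) := min_le_right _ _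
    have h2 : 3 * (g / (12 * M ^ 2)) * M ^ 2 = g / 4 := by field_simp; ring
    have h3 : 3 * min 1 (g / (12 * M ^ 2)) * M ^ 2 ≤ 3 * (g / (12 * M ^ 2)) * M ^ 2 := by
      gcongr
    linarith
  obtain ⟨N, hN, hnear⟩ := Pool.Agent.H20.S6.near_id hG hR hgood
    (hscal.self_of_nhdsWithin hwU).1 hscal hε0
  have e1 : ∀ᶠ w' in 𝓝 w, g / 2 < q w' 1 - q w' 0 := by
    have h1 : ContinuousAt (fun w' => q w' 1 - q w' 0) w := (hqc 1).sub (hqc 0)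
    exact h1.eventually_const_lt (by show g / 2 < g; linarith)
  have e2 : ∀ᶠ w' in 𝓝 w, ‖κ w'‖ < M := by
    exact hκc.norm.eventually_lt_const (by show ‖κ w‖ < M; rw [hκw]; linarith)
  have e3 : ∀ᶠ w' in 𝓝 w, w' ∈ UT S → κ w' ∈ Y (RS Φ S) w' ∧ ⟪w'.2, (κ w').1⟫_ℝ = 0 :=
    eventually_nhdsWithin_iff.1 hκY
  have e4 : ∀ᶠ w' : E × E in 𝓝 w, w'.1 ∈ S → kap w'.1 < 0 := by
    have h1 := (kap_cont h hdim hn hk w.1 hxS).eventually_lt_const hneg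
    exact continuousAt_fst.eventually (eventually_nhdsWithin_iff.1 h1)
  obtain ⟨O₁, hO₁, hO₁o, hwO₁⟩ := mem_nhds_iff.1 (Filter.inter_mem hN
    (e1.and (e2.and (e3.and e4))))
  obtain ⟨T, hT, w', hw'S, hw'n, hw'O, hw'O'⟩ :=
    ((hR.diag w hwU).2.2 : Leads Φ S w w) O₁ O₁ hO₁o hO₁o hwO₁ hwO₁ 1
  have hw'U : w' ∈ UT S := ⟨hw'S, hw'n⟩
  obtain ⟨hN1, f1, f2, f3, f4⟩ := hO₁ hw'O
  obtain ⟨hN2, -⟩ := hO₁ hw'O'
  obtain ⟨k1, k2⟩ := f3 hw'U
  have k3 := f4 (fst_mem_TSet hw'S)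
  have k4 := hnear w' hw'U hN1 T hN2 (κ w') k1 k2
  have k5 := hmono w' hw'U k1 k2 k3 hT.le
  -- the estimate
  set a := fderiv ℝ (Φ T) w' (κ w') with ha
  set b := κ w' with hb
  have hq0 : q w' 0 = ⟪b.1, b.2⟫_ℝ := by
    rw [hq]; simp only; rw [fderiv_flow_zero h]
  have hqT : q w' T = ⟪a.1, a.2⟫_ℝ := rfl
  have hsplit : ⟪a.1, a.2⟫_ℝ - ⟪b.1, b.2⟫_ℝ = ⟪(a - b).1, a.2⟫_ℝ + ⟪b.1, (a - b).2⟫_ℝ :=
    inner_split a b
  have n1 : ‖(a - b).1‖ ≤ ‖a - b‖ := norm_fst_le _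
  have n2 : ‖(a - b).2‖ ≤ ‖a - b‖ := norm_snd_le _
  have n3 : ‖a.2‖ ≤ ‖a‖ := norm_snd_le _
  have n4 : ‖b.1‖ ≤ ‖b‖ := norm_fst_le _
  have n5 : ‖a‖ ≤ 2 * ‖b‖ := by
    have h1 : ‖a‖ ≤ ‖a - b‖ + ‖b‖ := by
      calc ‖a‖ = ‖(a - b) + b‖ := by rw [sub_add_cancel]
        _ ≤ _ := norm_add_le _ _
    have h2 : ε * ‖b‖ ≤ 1 * ‖b‖ := mul_le_mul_of_nonneg_right hε1 (norm_nonneg _)
    linarith
  have i1 : ⟪(a - b).1, a.2⟫_ℝ ≤ (ε * ‖b‖) * (2 * ‖b‖) :=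
    (real_inner_le_norm _ _).trans (mul_le_mul (n1.trans k4) (n3.trans n5) (norm_nonneg _)
      (by positivity))
  have i2 : ⟪b.1, (a - b).2⟫_ℝ ≤ ‖b‖ * (ε * ‖b‖) :=
    (real_inner_le_norm _ _).trans (mul_le_mul n4 (n2.trans k4) (norm_nonneg _)
      (norm_nonneg _))
  have i3 : ‖b‖ ^ 2 ≤ M ^ 2 := by
    have := norm_nonneg b
    nlinarith
  have i4 : 3 * ε * ‖b‖ ^ 2 ≤ 3 * ε * M ^ 2 := by gcongr
  have i5 : ⟪a.1, a.2⟫_ℝ - ⟪b.1, b.2⟫_ℝ ≤ 3 * ε * ‖b‖ ^ 2 := by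
    rw [hsplit]; nlinarith
  have i6 : q w' 1 ≤ q w' T := k5
  rw [hqT] at i6
  rw [hq0] at f1
  linarith

theorem kap_nonneg (h : GFlow F S A K K₂ Φ) (hdim : Module.finrank ℝ E = Module.finrank ℝ F + n)
    (hn : 2 ≤ n) (hD : ∀ w ∈ UT S, ∀ O ∈ 𝓝 w, ∃ w' ∈ O, Dpt Φ S w')
    {kap : E → ℝ} (hk : PC F S kap) (hc : KC Φ S kap) {x : E}
    (hx : x ∈ S) : 0 ≤ kap x := by
  by_contra hneg
  push Not at hneg
  have hfr := finrank_TS hdim h.sub hx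
  obtain ⟨u, hu, hu0, -⟩ := exists_perp (T := ZT S x) (by omega) 0
  have hn0 : ‖u‖ ≠ 0 := norm_ne_zero_iff.2 hu0
  have hw : (x, ‖u‖⁻¹ • u) ∈ UT S := by
    refine ⟨(mem_TS h.sub hx).1 (Submodule.smul_mem _ _ hu), ?_⟩
    show ‖‖u‖⁻¹ • u‖ = 1
    rw [norm_smul, norm_inv, norm_norm, inv_mul_cancel₀ hn0]
  have h1 := (kap_cont h hdim hn hk x hx).eventually_lt_const hneg
  have h2 : ∀ᶠ w' : E × E in 𝓝 (x, ‖u‖⁻¹ • u), w'.1 ∈ S → kap w'.1 < 0 :=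
    (continuous_fst.tendsto (x, ‖u‖⁻¹ • u)).eventually (p := fun y : E => y ∈ S → kap y < 0)
      (eventually_nhdsWithin_iff.1 h1)
  obtain ⟨w', hw', hd⟩ := hD _ hw _ h2
  exact absurd (kap_nonneg_of_Dpt h hdim hn hk hc hd) (not_le.2 (hw' (fst_mem_TSet hd.1.1.1)))

end Pool.Agent.H54.S7
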