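import Pool.Agent.H54.S7.Ode
import Pool.Agent.H2.S7.Ode

/-!
# 7E (2): the curvature is not positive
-/

set_option autoImplicit false
set_option linter.unusedSectionVars false
set_option linter.unusedVariables false

open scoped InnerProductSpace Topology ContDiff
open Set Filter

namespace Pool.Agent.H54.S7

open Pool.Agent.H91.GE Pool.Agent.H59.LV Pool.Agent.H59.ND Pool.Agent.H59.Zar

variable {E F : Type*} [NormedAddCommGroup E] [InnerProductSpace ℝ E] [FiniteDimensional ℝ E]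
  [NormedAddCommGroup F] [InnerProductSpace ℝ F] [FiniteDimensional ℝ F]
  {S : Set E} {A : E × E → E} {K K₂ : NNReal} {Φ : ℝ → E × E → E × E} {n : ℕ}

/-- `s = sin (c t) / c`: the function `r s² - 2 q s s' + p s'²` is constant, so the vertical Jacobi
fields vanish at `π / c`, `c² = kap x`: infinitely many geodesics of the same length between two
points, against `finite_flow`. -/
theorem kap_nonpos (h : GFlow F S A K K₂ Φ) (hdim : Module.finrank ℝ E = Module.finrank ℝ F + n)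
    (hn : 2 ≤ n) (hsec : Secure S) {kap : E → ℝ} (hk : PC F S kap) (hc : KC Φ S kap) {x : E}
    (hx : x ∈ S) : kap x ≤ 0 := by
  by_contra hpos
  rw [not_le] at hpos
  have hfr : Module.finrank ℝ (ZT S x) = n := finrank_TS hdim h.sub hx
  -- an orthonormal pair of tangent vectors
  obtain ⟨u, hu, e, he, hun, hen, hue⟩ : ∃ u ∈ ZT S x, ∃ e ∈ ZT S x,
      ‖u‖ = 1 ∧ ‖e‖ = 1 ∧ ⟪u, e⟫_ℝ = 0 := by
    let b := (stdOrthonormalBasis ℝ (ZT S x)).reindex (finCongr hfr)
    let i₀ : Fin n := ⟨0, by omega⟩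
    let i₁ : Fin n := ⟨1, by omega⟩
    have hne : i₀ ≠ i₁ := by
      intro h1
      have h2 : (0 : ℕ) = 1 := congrArg Fin.val h1
      exact absurd h2 (by norm_num)
    refine ⟨b i₀, (b i₀).2, b i₁, (b i₁).2, ?_, ?_, ?_⟩
    · exact b.norm_eq_one i₀
    · exact b.norm_eq_one i₁
    · exact b.inner_eq_zero hne
  have heu : ⟪e, u⟫_ℝ = 0 := by rw [real_inner_comm]; exact hue
  have huu : ⟪u, u⟫_ℝ = 1 := by rw [real_inner_self_eq_norm_sq, hun]; norm_num
  have hee : ⟪e, e⟫_ℝ = 1 := by rw [real_inner_self_eq_norm_sq, hen]; norm_num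
  -- the fibre circle
  set c : ℝ → E := fun s => Real.cos s • u + Real.sin s • e with hcd
  set d : ℝ → E := fun s => -Real.sin s • u + Real.cos s • e with hdd
  have hcZ : ∀ s, c s ∈ ZT S x := fun s =>
    (ZT S x).add_mem ((ZT S x).smul_mem _ hu) ((ZT S x).smul_mem _ he)
  have hdZ : ∀ s, d s ∈ ZT S x := fun s =>
    (ZT S x).add_mem ((ZT S x).smul_mem _ hu) ((ZT S x).smul_mem _ he)
  have hcd0 : ∀ s, ⟪c s, d s⟫_ℝ = 0 := by
    intro s
    simp only [hcd, hdd, inner_add_left, inner_add_right, real_inner_smul_left,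
      real_inner_smul_right, huu, hee, hue, heu]
    ring
  have hcn : ∀ s, ‖c s‖ = 1 := by
    intro s
    have h1 : ⟪c s, c s⟫_ℝ = 1 := by
      simp only [hcd, inner_add_left, inner_add_right, real_inner_smul_left,
        real_inner_smul_right, huu, hee, hue, heu]
      have := Real.sin_sq_add_cos_sq s
      linarith
    rw [real_inner_self_eq_norm_sq] at h1
    nlinarith [norm_nonneg (c s)]
  have hcU : ∀ s, (x, c s) ∈ UT S := fun s => ⟨(mem_TS h.sub hx).1 (hcZ s), hcn s⟩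
  have hc' : ∀ s, HasDerivAt c (d s) s := by
    intro s
    exact ((Real.hasDerivAt_cos s).smul_const u).add ((Real.hasDerivAt_sin s).smul_const e)
  set L : ℝ := Real.pi / √(kap x) with hL
  have hL0 : 0 < L := div_pos Real.pi_pos (Real.sqrt_pos.2 hpos)
  -- the vertical Jacobi fields vanish at `L`
  have hzero : ∀ s, (fderiv ℝ (Φ L) (x, c s) (0, d s)).1 = 0 := by
    intro s
    have hmem : ((0 : E), d s) ∈ ZT (UT S) (x, c s) :=
      (ver_mem_iff h.sub (hcU s)).2 ⟨hdZ s, hcd0 s⟩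
    have h0 : ⟪((x, c s) : E × E).2, (((0 : E), d s) : E × E).1⟫_ℝ = 0 := inner_zero_right _
    have hkc : ∀ t, kap (Φ t (x, c s)).1 = kap x := fun t => hc _ (hcU s) t
    have hp := deriv_p h (x, c s) (0, d s)
    have hq : ∀ t, HasDerivAt
        (fun t => ⟪(fderiv ℝ (Φ t) (x, c s) (0, d s)).1, (fderiv ℝ (Φ t) (x, c s) (0, d s)).2⟫_ℝ)
        (rr A (Φ t (x, c s)) (fderiv ℝ (Φ t) (x, c s) (0, d s))
          - kap x * ‖(fderiv ℝ (Φ t) (x, c s) (0, d s)).1‖ ^ 2) t := by
      intro t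
      have h1 := deriv_q h hk (hcU s) hmem h0 t
      rwa [hkc t] at h1
    have hr : ∀ t, HasDerivAt
        (fun t => rr A (Φ t (x, c s)) (fderiv ℝ (Φ t) (x, c s) (0, d s)))
        (-(2 * kap x * ⟪(fderiv ℝ (Φ t) (x, c s) (0, d s)).1,
          (fderiv ℝ (Φ t) (x, c s) (0, d s)).2⟫_ℝ)) t := by
      intro t
      have h1 := deriv_r h hk (hcU s) hmem h0 t
      rwa [hkc t] at h1
    have h1 := Pool.Agent.H2.S7.zero_pos hpos hp hq hr (by
      show ‖(fderiv ℝ (Φ 0) (x, c s) (0, d s)).1‖ ^ 2 = 0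
      rw [fderiv_flow_zero h]
      show ‖(0 : E)‖ ^ 2 = 0
      rw [norm_zero]
      norm_num)
    have h2 : ‖(fderiv ℝ (Φ L) (x, c s) (0, d s)).1‖ ^ 2 = 0 := h1
    exact norm_eq_zero.1 (pow_eq_zero_iff (two_ne_zero)  |>.1 h2)
  -- so the end point does not depend on the direction
  have hder : ∀ s, HasDerivAt (fun s => (Φ L (x, c s)).1) (0 : E) s := by
    intro s
    have h1 : HasDerivAt (fun s => ((x, c s) : E × E)) (0, d s) s :=
      (hasDerivAt_const s x).prodMk (hc' s)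
    have h2 : HasFDerivAt (Φ L) (fderiv ℝ (Φ L) (x, c s)) (x, c s) :=
      (h.flow.differentiable h.vf L (x, c s)).hasFDerivAt
    have h3 : HasFDerivAt (fun w => (Φ L w).1)
        ((ContinuousLinearMap.fst ℝ E E).comp (fderiv ℝ (Φ L) (x, c s))) (x, c s) :=
      HasFDerivAt.comp (x, c s) (g := Prod.fst) hasFDerivAt_fst h2
    have h4 : HasDerivAt (fun s => (Φ L (x, c s)).1)
        ((fderiv ℝ (Φ L) (x, c s) (0, d s)).1) s :=
      HasFDerivAt.comp_hasDerivAt (l := fun w : E × E => (Φ L w).1)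
        (f := fun s : ℝ => ((x, c s) : E × E)) s h3 h1
    rwa [hzero s] at h4
  have hconst : ∀ s, (Φ L (x, c s)).1 = (Φ L (x, c 0)).1 := fun s =>
    is_const_of_deriv_eq_zero (fun s => (hder s).differentiableAt) (fun s => (hder s).deriv) s 0
  have hfin := finite_flow h hsec (x := x) (y := (Φ L (x, c 0)).1) L
  have hinj : InjOn (fun s : ℝ => ((c s, L) : E × ℝ)) (Icc 0 1) := by
    intro s hs s' hs' heq
    have h1 : c s = c s' := congrArg Prod.fst heq
    have h2 : ∀ r, ⟪e, c r⟫_ℝ = Real.sin r := by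
      intro r
      simp only [hcd, inner_add_right, real_inner_smul_right, hee, heu]
      ring
    have h3 : Real.sin s = Real.sin s' := by rw [← h2, ← h2, h1]
    have hpi := Real.pi_gt_three
    refine Real.injOn_sin ?_ ?_ h3
    · exact ⟨by linarith [hs.1], by linarith [hs.2]⟩
    · exact ⟨by linarith [hs'.1], by linarith [hs'.2]⟩
  have hmaps : MapsTo (fun s : ℝ => ((c s, L) : E × ℝ)) (Icc 0 1)
      {p : E × ℝ | (x, p.1) ∈ UT S ∧ |p.2| ≤ L ∧ p.2 ≠ 0 ∧
        (Φ p.2 (x, p.1)).1 = (Φ L (x, c 0)).1} := by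
    intro s _
    exact ⟨hcU s, (abs_of_pos hL0).le, hL0.ne', hconst s⟩
  exact (Set.infinite_of_injOn_mapsTo hinj hmaps (Icc_infinite zero_lt_one)) hfin

end Pool.Agent.H54.S7
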