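import Pool.Agent.H54.S7.Defs
import Pool.Agent.H62.S7.Flat
import Pool.Agent.H59.S5.Param

/-!
# 7F: curvature zero
-/

set_option autoImplicit false
set_option linter.unusedSectionVars false
set_option linter.unusedVariables false

open scoped InnerProductSpace Topology ContDiff
open Set Filter

namespace Pool.Agent.H54.S7

open Pool.Agent.H91.GE Pool.Agent.H59.LV Pool.Agent.H59.ND Pool.Agent.H59.Zar

variable {E F : Type*} [NormedAddCommGroup E] [InnerProductSpace ℝ E] [FiniteDimensional ℝ E]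
  [NormedAddCommGroup F] [InnerProductSpace ℝ F] [FiniteDimensional ℝ F]
  {S : Set E} {A : E × E → E} {K K₂ : NNReal} {Φ : ℝ → E × E → E × E} {n : ℕ}

theorem lin_of_zero (h : GFlow F S A K K₂ Φ) {kap : E → ℝ} (hk : PC F S kap)
    (h0 : ∀ x ∈ S, kap x = 0) : Pool.Agent.H59.S5.Lin Φ S := by
  refine Pool.Agent.H62.S7.lin_of_flat h ?_
  intro x hx
  obtain ⟨O, hO, f, hf⟩ := h.sub x hx
  refine ⟨O, f, hO, hf, fun v hv a ha => ?_⟩
  have h1 := hk x hx O f hf hO v hv a ha a ha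
  rw [h0 x hx, zero_mul] at h1
  have h2 : ⟪Pool.Agent.H62.S7.II f x v v, Pool.Agent.H62.S7.II f x a a⟫_ℝ
      - ⟪Pool.Agent.H62.S7.II f x v a, Pool.Agent.H62.S7.II f x v a⟫_ℝ = 0 := h1
  rw [Pool.Agent.H62.S7.II_symm hf hO a v]
  linarith

end Pool.Agent.H54.S7
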