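import Pool.Agent.H54.S7.Scalar
import Pool.Agent.H54.S7.Pos
import Pool.Agent.H54.S7.Neg
import Pool.Agent.H54.S7.Zero
import Pool.Agent.H27.S7.Schur

/-!
# Section 7: assembly
-/

set_option autoImplicit false
set_option linter.unusedSectionVars false
set_option linter.unusedVariables false

open scoped InnerProductSpace Topology ContDiff
open Set Filter

namespace Pool.Agent.H54.S7

open Pool.Agent.H91.GE Pool.Agent.H59.LV Pool.Agent.H59.ND Pool.Agent.H59.Zar

variable {E F : Type*} [NormedAddCommGroup E] [InnerProductSpace ℝ E] [FiniteDimensional ℝ E]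
  [NormedAddCommGroup F] [InnerProductSpace ℝ F] [FiniteDimensional ℝ F]
  {S : Set E} {A : E × E → E} {K K₂ : NNReal} {Φ : ℝ → E × E → E × E} {n : ℕ}

/-- 7D (helper27, `H27/S7/Schur`). -/
theorem KC_of_PC (h : GFlow F S A K K₂ Φ) (hdim : Module.finrank ℝ E = Module.finrank ℝ F + n)
    (hn : 3 ≤ n) {kap : E → ℝ} (hk : PC F S kap) : KC Φ S kap := by
  intro w hw t
  have hS : ∀ s, (Φ s w).1 ∈ S := fun s => fst_mem_TSet (flow_mem_UT h hw s).1
  have hd : ∀ s, HasDerivAt (fun s => kap (Φ s w).1) 0 s := by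
    intro s
    refine Pool.Agent.H27.S7.schur hdim hn h.sub (κ := kap) ?_ (γ := fun s => (Φ s w).1) hS
      ((ContinuousLinearMap.fst ℝ E E).hasFDerivAt.comp_hasDerivAt s (hasDerivAt_flow h w s))
    intro x hx
    obtain ⟨O, hxO, f, hf⟩ := h.sub x hx
    refine ⟨O, f, hf, hxO, fun y hy hyO u v v' hu hv hv' => ?_⟩
    exact hk y hy O f hf hyO u ((mem_TS' hf hy hyO).2 hu) v ((mem_TS' hf hy hyO).2 hv) v'
      ((mem_TS' hf hy hyO).2 hv')
  have hc := is_const_of_deriv_eq_zero (fun s => (hd s).differentiableAt)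
    (fun s => (hd s).deriv) t 0
  rw [h.flow.zero] at hc
  exact hc

/-- **Section 7.** -/
theorem lin_of_dense (h : GFlow F S A K K₂ Φ)
    (hdim : Module.finrank ℝ E = Module.finrank ℝ F + n)
    (hn : 3 ≤ n) (hsec : Secure S) (hD : ∀ w ∈ UT S, ∀ O ∈ 𝓝 w, ∃ w' ∈ O, Dpt Φ S w') :
    Pool.Agent.H59.S5.Lin Φ S := by
  obtain ⟨kap, hk⟩ := exists_PC h hdim hn hD
  have hc := KC_of_PC h hdim hn hk
  exact lin_of_zero h hk fun x hx => le_antisymm
    (kap_nonpos h hdim (by omega) hsec hk hc hx) (kap_nonneg h hdim (by omega) hD hk hc hx)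

end Pool.Agent.H54.S7
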