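import Pool.Agent.H77.SN.Sec6
import Pool.Agent.H54.S7.Main

/-!
# Section 7: the start points are dense
-/

set_option autoImplicit false
set_option linter.unusedSectionVars false
set_option linter.unusedVariables false

open scoped InnerProductSpace Topology ContDiff
open Set Filter

namespace Pool.Agent.H54.S7

open Pool.Agent.H91.GE hiding G1 G11 Nondeg Br exists_br cF smooth_cF Cfg mem_TSet_of_map
open Pool.Agent.H59.LV Pool.Agent.H59.ND Pool.Agent.H59.Zar

variable {E F : Type*} [NormedAddCommGroup E] [InnerProductSpace ℝ E] [FiniteDimensional ℝ E]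
  [NormedAddCommGroup F] [InnerProductSpace ℝ F] [FiniteDimensional ℝ F]
  {S : Set E} {A : E × E → E} {K K₂ : NNReal} {Φ : ℝ → E × E → E × E} {n : ℕ}

theorem dpt_of_OO (h : GFlow F S A K K₂ Φ) (hdim : Module.finrank ℝ E = Module.finrank ℝ F + n)
    (hn : 2 ≤ n) (hsec : Secure S) {w : E × E} (hw : w ∈ Pool.Agent.H77.SN.OO Φ S n) :
    Dpt Φ S w := by
  have hR := retRel h hdim
  have hU : w ∈ UT S := hw.1.1
  refine ⟨hw.1, ?_, ?_⟩
  · filter_upwards [Pool.Agent.H77.SN.OO_open h hdim hw] with w' hw'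
    exact Pool.Agent.H77.SN.scal h hdim hn hsec hw'
  · have htr := (Pool.Agent.H77.SN.scal h hdim hn hsec hw).1
    have hfr : Module.finrank ℝ (Y (RS Φ S) w) = n := hw.2
    have hft : Module.finrank ℝ (ZT S w.1) = n := finrank_TS hdim h.sub (fst_mem_TSet hU.1)
    let L : Y (RS Φ S) w →ₗ[ℝ] ZT S w.1 :=
      LinearMap.restrict (LinearMap.fst ℝ E E) (fun a ha => fst_mem_TS hU (hR.Y_le hU ha))
    have hinj : Function.Injective L := by
      rw [← LinearMap.ker_eq_bot, LinearMap.ker_eq_bot']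
      intro a ha
      have h1 : (a : E × E).1 = 0 := congrArg Subtype.val ha
      exact Subtype.ext (htr a.1 a.2 h1)
    have hsurj : Function.Surjective L :=
      (LinearMap.injective_iff_surjective_of_finrank_eq_finrank (by rw [hfr, hft])).1 hinj
    intro η hη
    obtain ⟨a, ha⟩ := hsurj ⟨η, hη⟩
    exact ⟨a.1, a.2, congrArg Subtype.val ha⟩

/-- **Section 7.** -/
theorem lin_of_secure (h : GFlow F S A K K₂ Φ)
    (hdim : Module.finrank ℝ E = Module.finrank ℝ F + n)
    (hn : 3 ≤ n) (hsec : Secure S) : Pool.Agent.H59.S5.Lin Φ S := by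
  refine lin_of_dense h hdim hn hsec fun w hw O hO => ?_
  obtain ⟨w', hw'O, hw'⟩ := Pool.Agent.H77.SN.dense_OO h hdim (by omega) hsec hw hO
  exact ⟨w', hw'O, dpt_of_OO h hdim (by omega) hsec hw'⟩

end Pool.Agent.H54.S7
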