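import Pool.Agent.H54.S7.Gauss

/-!
# 7E (1): Jacobi fields on a manifold of pointwise constant sectional curvature
-/

set_option autoImplicit false
set_option linter.unusedSectionVars false
set_option linter.unusedVariables false

open scoped InnerProductSpace Topology ContDiff
open Set Filter

namespace Pool.Agent.H54.S7

open Pool.Agent.H91.GE Pool.Agent.H59.LV Pool.Agent.H59.ND Pool.Agent.H59.Zar

variable {E F : Type*} [NormedAddCommGroup E] [InnerProductSpace ℝ E] [FiniteDimensional ℝ E]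
  [NormedAddCommGroup F] [InnerProductSpace ℝ F] [FiniteDimensional ℝ F]
  {S : Set E} {A : E × E → E} {K K₂ : NNReal} {Φ : ℝ → E × E → E × E} {n : ℕ}

/-- The normal part of `K.2`. -/
noncomputable def ode_nor (A : E × E → E) (w a : E × E) : E :=
  (1 / 2 : ℝ) • fderiv ℝ A w ((0 : E), a.1)

/-- The tangential part of `K.2`. -/
noncomputable def ode_tan (A : E × E → E) (w a : E × E) : E := a.2 - ode_nor A w a

theorem ode_tan_mem (h : GFlow F S A K K₂ Φ) {w a : E × E} (hw : w ∈ UT S)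
    (ha : a ∈ ZT (UT S) w) : ode_tan A w a ∈ ZT S w.1 := tan_part h hw ha

theorem ode_inner_nor (h : GFlow F S A K K₂ Φ) {w a : E × E} (hw : w ∈ UT S)
    (ha : a ∈ ZT (UT S) w) {e : E} (he : e ∈ ZT S w.1) : ⟪ode_nor A w a, e⟫_ℝ = 0 := by
  unfold ode_nor
  rw [inner_smul_left, inner_dA h hw (fst_mem_TS hw ha) he, mul_zero]

theorem ode_inner_snd (h : GFlow F S A K K₂ Φ) {w a : E × E} (hw : w ∈ UT S)
    (ha : a ∈ ZT (UT S) w) {e : E} (he : e ∈ ZT S w.1) : ⟪e, a.2⟫_ℝ = ⟪e, ode_tan A w a⟫_ℝ := by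
  unfold ode_tan
  rw [inner_sub_right, real_inner_comm (ode_nor A w a) e, ode_inner_nor h hw ha he, sub_zero]

theorem ode_rr (h : GFlow F S A K K₂ Φ) {w a : E × E} (hw : w ∈ UT S)
    (ha : a ∈ ZT (UT S) w) : rr A w a = ⟪ode_tan A w a, ode_tan A w a⟫_ℝ := by
  have h1 : a.2 = ode_tan A w a + ode_nor A w a := by unfold ode_tan; abel
  have h2 := ode_inner_nor h hw ha (ode_tan_mem h hw ha)
  have h3 : rr A w a = ‖a.2‖ ^ 2 - ‖ode_nor A w a‖ ^ 2 := rfl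
  rw [h3, ← real_inner_self_eq_norm_sq, ← real_inner_self_eq_norm_sq]
  nth_rewrite 1 2 [h1]
  rw [inner_add_left, inner_add_right, inner_add_right, h2,
    real_inner_comm (ode_nor A w a) (ode_tan A w a), h2]
  ring

/-- The function `rr` is the square of the length of the tangential part of `K.2`. -/
theorem rr_nonneg (h : GFlow F S A K K₂ Φ) {w a : E × E} (hw : w ∈ UT S)
    (ha : a ∈ ZT (UT S) w) : 0 ≤ rr A w a ∧ ⟪a.1, a.2⟫_ℝ ^ 2 ≤ ‖a.1‖ ^ 2 * rr A w a := by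
  rw [ode_rr h hw ha]
  refine ⟨real_inner_self_nonneg, ?_⟩
  rw [ode_inner_snd h hw ha (fst_mem_TS hw ha), real_inner_self_eq_norm_sq, ← mul_pow]
  exact sq_le_sq' (by linarith [neg_le_of_abs_le (abs_real_inner_le_norm a.1 (ode_tan A w a))])
    (real_inner_le_norm _ _)

theorem rr_vert (h : GFlow F S A K K₂ Φ) (w : E × E) (ξ : E) :
    rr A w ((0 : E), ξ) = ‖ξ‖ ^ 2 := by
  have h1 : (((0 : E), (((0 : E), ξ) : E × E).1) : E × E) = 0 := rfl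
  unfold rr
  rw [h1, map_zero, smul_zero, norm_zero]
  ring

theorem deriv_p (h : GFlow F S A K K₂ Φ) (w a : E × E) (t : ℝ) :
    HasDerivAt (fun t => ‖(fderiv ℝ (Φ t) w a).1‖ ^ 2)
      (2 * ⟪(fderiv ℝ (Φ t) w a).1, (fderiv ℝ (Φ t) w a).2⟫_ℝ) t := by
  have e1 : HasDerivAt (fun t => (fderiv ℝ (Φ t) w a).1) (fderiv ℝ (Φ t) w a).2 t :=
    (ContinuousLinearMap.fst ℝ E E).hasFDerivAt.comp_hasDerivAt t (hasDerivAt_jac h w a t)
  exact e1.norm_sq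

theorem deriv_q (h : GFlow F S A K K₂ Φ) {kap : E → ℝ} (hk : PC F S kap) {w a : E × E}
    (hw : w ∈ UT S) (ha : a ∈ ZT (UT S) w) (h0 : ⟪w.2, a.1⟫_ℝ = 0) (t : ℝ) :
    HasDerivAt (fun t => ⟪(fderiv ℝ (Φ t) w a).1, (fderiv ℝ (Φ t) w a).2⟫_ℝ)
      (rr A (Φ t w) (fderiv ℝ (Φ t) w a)
        - kap (Φ t w).1 * ‖(fderiv ℝ (Φ t) w a).1‖ ^ 2) t := by
  have e1 : HasDerivAt (fun t => (fderiv ℝ (Φ t) w a).1) (fderiv ℝ (Φ t) w a).2 t :=
    (ContinuousLinearMap.fst ℝ E E).hasFDerivAt.comp_hasDerivAt t (hasDerivAt_jac h w a t)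
  have e2 : HasDerivAt (fun t => (fderiv ℝ (Φ t) w a).2)
      (fderiv ℝ A (Φ t w) (fderiv ℝ (Φ t) w a)) t :=
    (ContinuousLinearMap.snd ℝ E E).hasFDerivAt.comp_hasDerivAt t (hasDerivAt_jac h w a t)
  have hθ : ⟪(Φ t w).2, (fderiv ℝ (Φ t) w a).1⟫_ℝ = 0 := by
    rw [theta_flow h hw ha, h0]
  have hwt : Φ t w ∈ UT S := flow_mem_UT h hw t
  have hat : fderiv ℝ (Φ t) w a ∈ ZT (UT S) (Φ t w) := (flow_ZTU h hw t).2 ha
  set x := Φ t w with hx
  set b := fderiv ℝ (Φ t) w a with hb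
  obtain ⟨O, hO, f, hf⟩ := h.sub x.1 (fst_mem_TSet hwt.1)
  have hb1 := fst_mem_TS hwt hat
  have hv1 := snd_mem_TS h.sub hwt
  have hvv : ⟪x.2, x.2⟫_ℝ = 1 := by rw [real_inner_self_eq_norm_sq, hwt.2]; norm_num
  refine (e1.inner ℝ e2).congr_deriv ?_
  have g1 := gauss h hf hwt hO hat hb1
  have g2 := hk x.1 (fst_mem_TSet hwt.1) O f hf hO x.2 hv1 b.1 hb1 b.1 hb1
  unfold Rm at g2
  rw [hvv, hθ, ← A_eq_II h hf hwt hO, ← dA_eq_II h hf hwt hO hb1] at g2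
  unfold rr
  rw [real_inner_comm (fderiv ℝ A x b) b.1, g1, ← real_inner_self_eq_norm_sq,
    ← real_inner_self_eq_norm_sq, ← real_inner_self_eq_norm_sq]
  linear_combination -g2

theorem deriv_r (h : GFlow F S A K K₂ Φ) {kap : E → ℝ} (hk : PC F S kap) {w a : E × E}
    (hw : w ∈ UT S) (ha : a ∈ ZT (UT S) w) (h0 : ⟪w.2, a.1⟫_ℝ = 0) (t : ℝ) :
    HasDerivAt (fun t => rr A (Φ t w) (fderiv ℝ (Φ t) w a))
      (-(2 * kap (Φ t w).1 * ⟪(fderiv ℝ (Φ t) w a).1, (fderiv ℝ (Φ t) w a).2⟫_ℝ)) t := by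
  have hAs : ContDiff ℝ ∞ A := h.field.smooth
  have e1 : HasDerivAt (fun t => (fderiv ℝ (Φ t) w a).1) (fderiv ℝ (Φ t) w a).2 t :=
    (ContinuousLinearMap.fst ℝ E E).hasFDerivAt.comp_hasDerivAt t (hasDerivAt_jac h w a t)
  have e2 : HasDerivAt (fun t => (fderiv ℝ (Φ t) w a).2)
      (fderiv ℝ A (Φ t w) (fderiv ℝ (Φ t) w a)) t :=
    (ContinuousLinearMap.snd ℝ E E).hasFDerivAt.comp_hasDerivAt t (hasDerivAt_jac h w a t)
  have e3 : HasDerivAt (fun t => (Φ t w).1) (Φ t w).2 t :=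
    (ContinuousLinearMap.fst ℝ E E).hasFDerivAt.comp_hasDerivAt t (hasDerivAt_flow h w t)
  have hθ : ⟪(Φ t w).2, (fderiv ℝ (Φ t) w a).1⟫_ℝ = 0 := by
    rw [theta_flow h hw ha, h0]
  have hU : ∀ s, Φ s w ∈ UT S := fun s => flow_mem_UT h hw s
  have hZ : ∀ s, fderiv ℝ (Φ s) w a ∈ ZT (UT S) (Φ s w) := fun s => (flow_ZTU h hw s).2 ha
  have hdA : HasFDerivAt (fderiv ℝ A) (fderiv ℝ (fderiv ℝ A) (Φ t w)) (Φ t w) :=
    ((hAs.fderiv_right (m := ∞) (by norm_num)).differentiable (by simp) _).hasFDerivAt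
  have e4 : HasDerivAt (fun s => fderiv ℝ A (Φ s w))
      (fderiv ℝ (fderiv ℝ A) (Φ t w) ((Φ t w).2, A (Φ t w))) t :=
    HasFDerivAt.comp_hasDerivAt (l := fderiv ℝ A) (f := fun s => Φ s w) t hdA
      (hasDerivAt_flow h w t)
  have e5 : HasDerivAt (fun s => (((0 : E), (fderiv ℝ (Φ s) w a).1) : E × E))
      ((0 : E), (fderiv ℝ (Φ t) w a).2) t := (hasDerivAt_const t (0 : E)).prodMk e1
  obtain ⟨N', hN⟩ : ∃ N', HasDerivAt (fun s => ode_nor A (Φ s w) (fderiv ℝ (Φ s) w a)) N' t :=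
    ⟨_, (e4.clm_apply e5).const_smul (1 / 2 : ℝ)⟩
  have hT : HasDerivAt (fun s => ode_tan A (Φ s w) (fderiv ℝ (Φ s) w a))
      (fderiv ℝ A (Φ t w) (fderiv ℝ (Φ t) w a) - N') t := e2.sub hN
  have hfun : (fun s => rr A (Φ s w) (fderiv ℝ (Φ s) w a)) = fun s =>
      ⟪ode_tan A (Φ s w) (fderiv ℝ (Φ s) w a), ode_tan A (Φ s w) (fderiv ℝ (Φ s) w a)⟫_ℝ :=
    funext fun s => ode_rr h (hU s) (hZ s)
  rw [hfun]
  refine (hT.inner ℝ hT).congr_deriv ?_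
  have hwt := hU t
  have hat := hZ t
  obtain ⟨O, hO, f, hf⟩ := h.sub (Φ t w).1 (fst_mem_TSet hwt.1)
  have hwein := weingarten hf e3 (Eventually.of_forall fun s => fst_mem_TSet (hU s).1) hN
    (Eventually.of_forall fun s e he => ode_inner_nor h (hU s) (hZ s) he) hO
    (ode_tan_mem h hwt hat)
  have hga := gauss h hf hwt hO hat (ode_tan_mem h hwt hat)
  set x := Φ t w with hx
  set b := fderiv ℝ (Φ t) w a with hb
  have hb1 := fst_mem_TS hwt hat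
  have hv1 := snd_mem_TS h.sub hwt
  have hvv : ⟪x.2, x.2⟫_ℝ = 1 := by rw [real_inner_self_eq_norm_sq, hwt.2]; norm_num
  have g2 := hk x.1 (fst_mem_TSet hwt.1) O f hf hO x.2 hv1 b.1 hb1 (ode_tan A x b)
    (ode_tan_mem h hwt hat)
  unfold Rm at g2
  rw [hvv, hθ, ← A_eq_II h hf hwt hO, ← dA_eq_II h hf hwt hO hb1] at g2
  have g3 : (1 / 2 : ℝ) • fderiv ℝ A x ((0 : E), b.1) = ode_nor A x b := rfl
  rw [g3] at g2
  rw [ode_inner_snd h hwt hat hb1, real_inner_comm (ode_tan A x b) (fderiv ℝ A x b - N'),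
    real_inner_comm (fderiv ℝ A x b - N') (ode_tan A x b), inner_sub_left, hga, hwein]
  linear_combination -2 * g2

end Pool.Agent.H54.S7
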