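import Pool.Agent.H54.S7.Gauss
import Pool.Agent.H27.S7.Alg

/-!
# 7B: the curvature operator `R_w` is scalar for every `w`
-/

set_option autoImplicit false
set_option linter.unusedSectionVars false
set_option linter.unusedVariables false

open scoped InnerProductSpace Topology ContDiff
open Set Filter

namespace Pool.Agent.H54.S7

open Pool.Agent.H91.GE Pool.Agent.H59.LV Pool.Agent.H59.ND Pool.Agent.H59.Zar

variable {E F : Type*} [NormedAddCommGroup E] [InnerProductSpace ℝ E] [FiniteDimensional ℝ E]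
  [NormedAddCommGroup F] [InnerProductSpace ℝ F] [FiniteDimensional ℝ F]
  {S : Set E} {A : E × E → E} {K K₂ : NNReal} {Φ : ℝ → E × E → E × E} {n : ℕ}

theorem IIs_add_left (f : E → F) (x a b c : E) : II f x (a + b) c = II f x a c + II f x b c := by
  unfold II
  rw [map_add, add_apply, map_add, neg_add]

theorem IIs_add_right (f : E → F) (x a b c : E) : II f x a (b + c) = II f x a b + II f x a c := by
  unfold II
  rw [map_add, map_add, neg_add]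

theorem II_smul_right (f : E → F) (x a b : E) (c : ℝ) : II f x a (c • b) = c • II f x a b := by
  unfold II
  rw [map_smul, map_smul, smul_neg]

theorem II_zero_right (f : E → F) (x a : E) : II f x a 0 = 0 := by
  unfold II
  rw [map_zero, map_zero, neg_zero]

theorem Rm_zero (f : E → F) (x u v : E) : Rm f x u v 0 = 0 := by
  unfold Rm
  rw [II_zero_right, II_zero_right, inner_zero_right, inner_zero_right, sub_zero]

/-- The derivative at `0` of the logarithmic derivative of a Jacobi field of `Y`. -/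
theorem deriv_lam (h : GFlow F S A K K₂ Φ) (hdim : Module.finrank ℝ E = Module.finrank ℝ F + n)
    {w a : E × E} (hw : w ∈ UT S) (hS : Pool.Agent.H20.S6.Scal (fun x => ZT S x) (RS Φ S) w)
    {O : Set E} {f : E → F} (hf : IsLoc S O f) (hO : w.1 ∈ O) (ha : a ∈ Y (RS Φ S) w)
    (h0 : ⟪w.2, a.1⟫_ℝ = 0) (hne : a.1 ≠ 0) :
    HasDerivAt (fun t => ⟪(fderiv ℝ (Φ t) w a).1, (fderiv ℝ (Φ t) w a).2⟫_ℝ /
        ‖(fderiv ℝ (Φ t) w a).1‖ ^ 2)
      (-(⟪a.1, a.2⟫_ℝ / ‖a.1‖ ^ 2) ^ 2 - Rm f w.1 w.2 a.1 a.1 / ‖a.1‖ ^ 2) 0 := by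
  have hR := retRel h hdim
  have haU : a ∈ ZT (UT S) w := hR.Y_le hw ha
  have haT : a.1 ∈ ZT S w.1 := fst_mem_TS hw haU
  obtain ⟨-, lam, hlam⟩ := hS
  have hx : w.1 ∈ S := fst_mem_TSet hw.1
  -- derivatives
  have hJ := hasDerivAt_jac h w a 0
  have d1 := (ContinuousLinearMap.fst ℝ E E).hasFDerivAt.comp_hasDerivAt (0 : ℝ) hJ
  have d2 := (ContinuousLinearMap.snd ℝ E E).hasFDerivAt.comp_hasDerivAt (0 : ℝ) hJ
  have f1 := d1.inner ℝ d2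
  have f2 := d1.inner ℝ d1
  have e0 : fderiv ℝ (Φ 0) w a = a := fderiv_flow_zero h w a
  have eΦ : Φ 0 w = w := h.flow.zero w
  have hpos : 0 < ‖a.1‖ ^ 2 := by positivity
  have hden : (fun s => ⟪(fderiv ℝ (Φ s) w a).1, (fderiv ℝ (Φ s) w a).1⟫_ℝ)
      = fun s => ‖(fderiv ℝ (Φ s) w a).1‖ ^ 2 := by
    funext s; exact real_inner_self_eq_norm_sq _
  have f2' : HasDerivAt (fun s => ‖(fderiv ℝ (Φ s) w a).1‖ ^ 2) (⟪a.1, a.2⟫_ℝ + ⟪a.2, a.1⟫_ℝ) 0 := by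
    rw [← hden]
    have := f2
    simp only [Function.comp_def, ContinuousLinearMap.coe_fst', e0] at this
    exact this
  have f1' : HasDerivAt (fun s => ⟪(fderiv ℝ (Φ s) w a).1, (fderiv ℝ (Φ s) w a).2⟫_ℝ)
      (⟪a.1, fderiv ℝ A w a⟫_ℝ + ⟪a.2, a.2⟫_ℝ) 0 := by
    have := f1
    simp only [Function.comp_def, ContinuousLinearMap.coe_fst', ContinuousLinearMap.coe_snd', e0,
      eΦ] at this
    exact this
  have hden0 : ‖(fderiv ℝ (Φ 0) w a).1‖ ^ 2 ≠ 0 := by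
    rw [e0]; exact hpos.ne'
  have f3 := f1'.div f2' hden0
  rw [e0] at f3
  refine f3.congr_deriv ?_
  -- the vertical part
  set N : E := II f w.1 w.2 a.1 with hN
  have hN' : (1 / 2 : ℝ) • fderiv ℝ A w (0, a.1) = N := dA_eq_II h hf hw hO haT
  have htan : a.2 - N ∈ ZT S w.1 := by
    rw [← hN']; exact tan_part h hw haU
  have ha2 : a.2 = lam • a.1 + N := by
    have h1 : a.2 - N - lam • a.1 ∈ ZT S w.1 := Submodule.sub_mem _ htan (Submodule.smul_mem _ _ haT)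
    have h2 : ⟪a.2 - N - lam • a.1, a.2 - N - lam • a.1⟫_ℝ = 0 := by
      have h3 : ⟪a.2, a.2 - N - lam • a.1⟫_ℝ = lam * ⟪a.1, a.2 - N - lam • a.1⟫_ℝ :=
        hlam a ha h0 _ h1
      have h4 : ⟪N, a.2 - N - lam • a.1⟫_ℝ = 0 := inner_II hf hx hO _ _ h1
      calc ⟪a.2 - N - lam • a.1, a.2 - N - lam • a.1⟫_ℝ
          = ⟪a.2, a.2 - N - lam • a.1⟫_ℝ - ⟪N, a.2 - N - lam • a.1⟫_ℝ
            - lam * ⟪a.1, a.2 - N - lam • a.1⟫_ℝ := by
              rw [inner_sub_left, inner_sub_left, real_inner_smul_left]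
        _ = 0 := by rw [h3, h4]; ring
    have h5 : a.2 - N - lam • a.1 = 0 := inner_self_eq_zero.1 h2
    have h6 : a.2 - N = lam • a.1 := sub_eq_zero.1 h5
    rw [← h6]; abel
  have hNa : ⟪N, a.1⟫_ℝ = 0 := inner_II hf hx hO _ _ haT
  have g1 : ⟪a.1, a.2⟫_ℝ = lam * ‖a.1‖ ^ 2 := by
    rw [ha2, inner_add_right, real_inner_smul_right, real_inner_self_eq_norm_sq, real_inner_comm, hNa,
      add_zero]
  have g2 : ⟪a.2, a.2⟫_ℝ = lam ^ 2 * ‖a.1‖ ^ 2 + ⟪N, N⟫_ℝ := by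
    rw [ha2, inner_add_left, inner_add_right, inner_add_right, real_inner_smul_left,
      real_inner_smul_right, real_inner_smul_left, real_inner_smul_right,
      real_inner_self_eq_norm_sq a.1, hNa, real_inner_comm N a.1, hNa]
    ring
  have g3 : ⟪a.1, fderiv ℝ A w a⟫_ℝ = -⟪II f w.1 w.2 w.2, II f w.1 a.1 a.1⟫_ℝ := by
    rw [real_inner_comm, gauss h hf hw hO haU haT, A_eq_II h hf hw hO]
  have g4 : Rm f w.1 w.2 a.1 a.1 = ⟪II f w.1 w.2 w.2, II f w.1 a.1 a.1⟫_ℝ - ⟪N, N⟫_ℝ := rfl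
  have g5 : ⟪a.2, a.1⟫_ℝ = lam * ‖a.1‖ ^ 2 := by rw [real_inner_comm]; exact g1
  rw [g1, g2, g3, g4, g5]
  field_simp
  ring

theorem scalar_Dpt (h : GFlow F S A K K₂ Φ) (hdim : Module.finrank ℝ E = Module.finrank ℝ F + n)
    {w : E × E} (hw : Dpt Φ S w) {O : Set E} {f : E → F} (hf : IsLoc S O f) (hO : w.1 ∈ O)
    {η₁ η₂ : E} (h1 : η₁ ∈ ZT S w.1) (h2 : η₂ ∈ ZT S w.1) (h10 : ⟪w.2, η₁⟫_ℝ = 0)
    (h20 : ⟪w.2, η₂⟫_ℝ = 0) :
    Rm f w.1 w.2 η₁ η₁ * ‖η₂‖ ^ 2 = Rm f w.1 w.2 η₂ η₂ * ‖η₁‖ ^ 2 := by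
  have hR := retRel h hdim
  have hwU : w ∈ UT S := hw.1.1
  rcases eq_or_ne η₁ 0 with rfl | hη1
  · rw [Rm_zero]; simp
  rcases eq_or_ne η₂ 0 with rfl | hη2
  · rw [Rm_zero]; simp
  obtain ⟨a₁, ha₁, rfl⟩ := hw.2.2 η₁ h1
  obtain ⟨a₂, ha₂, rfl⟩ := hw.2.2 η₂ h2
  have hS0 : Pool.Agent.H20.S6.Scal (fun x => ZT S x) (RS Φ S) w :=
    hw.2.1.self_of_nhdsWithin hwU
  have D1 := deriv_lam h hdim hwU hS0 hf hO ha₁ h10 hη1
  have D2 := deriv_lam h hdim hwU hS0 hf hO ha₂ h20 hη2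
  -- the logarithmic derivatives agree near 0
  have hcont : Tendsto (fun t => Φ t w) (𝓝 0) (𝓝[UT S] w) := by
    refine tendsto_nhdsWithin_iff.2 ⟨?_, Eventually.of_forall fun t => flow_mem_UT h hwU t⟩
    have h3 := (hasDerivAt_flow h w 0).continuousAt.tendsto
    rwa [h.flow.zero] at h3
  have hnz : ∀ a : E × E, a.1 ≠ 0 → ∀ᶠ t in 𝓝 (0 : ℝ), (fderiv ℝ (Φ t) w a).1 ≠ 0 := by
    intro a ha
    have h3 := ((ContinuousLinearMap.fst ℝ E E).hasFDerivAt.comp_hasDerivAt (0 : ℝ)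
      (hasDerivAt_jac h w a 0)).continuousAt
    have h4 : ((fun t => (ContinuousLinearMap.fst ℝ E E) (fderiv ℝ (Φ t) w a)) (0 : ℝ)) ≠ 0 := by
      show (fderiv ℝ (Φ 0) w a).1 ≠ 0
      rw [fderiv_flow_zero h]; exact ha
    exact h3.eventually_ne h4
  have hev : (fun t => ⟪(fderiv ℝ (Φ t) w a₁).1, (fderiv ℝ (Φ t) w a₁).2⟫_ℝ /
        ‖(fderiv ℝ (Φ t) w a₁).1‖ ^ 2) =ᶠ[𝓝 0]
      (fun t => ⟪(fderiv ℝ (Φ t) w a₂).1, (fderiv ℝ (Φ t) w a₂).2⟫_ℝ /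
        ‖(fderiv ℝ (Φ t) w a₂).1‖ ^ 2) := by
    filter_upwards [hcont.eventually hw.2.1, hnz a₁ hη1, hnz a₂ hη2] with t ht hz1 hz2
    obtain ⟨-, lam, hlam⟩ := ht
    have hwt := flow_mem_UT h hwU t
    have key : ∀ a : E × E, a ∈ Y (RS Φ S) w → ⟪w.2, a.1⟫_ℝ = 0 → (fderiv ℝ (Φ t) w a).1 ≠ 0 →
        ⟪(fderiv ℝ (Φ t) w a).1, (fderiv ℝ (Φ t) w a).2⟫_ℝ / ‖(fderiv ℝ (Φ t) w a).1‖ ^ 2 = lam := by
      intro a ha ha0 hz
      have haU := hR.Y_le hwU ha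
      have hY : fderiv ℝ (Φ t) w a ∈ Y (RS Φ S) (Φ t w) := (hR.flow_Y hwU t).2 ha
      have hth : ⟪(Φ t w).2, (fderiv ℝ (Φ t) w a).1⟫_ℝ = 0 := by
        rw [theta_flow h hwU haU t]; exact ha0
      have h3 := hlam _ hY hth _ (fst_mem_TS hwt (hR.Y_le hwt hY))
      rw [real_inner_comm, h3, real_inner_self_eq_norm_sq]
      have : ‖(fderiv ℝ (Φ t) w a).1‖ ^ 2 ≠ 0 := by positivity
      field_simp
    rw [key a₁ ha₁ h10 hz1, key a₂ ha₂ h20 hz2]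
  have hEq := (D1.congr_of_eventuallyEq hev.symm).unique D2
  obtain ⟨-, lam, hlam⟩ := hS0
  have hl : ∀ a : E × E, a ∈ Y (RS Φ S) w → ⟪w.2, a.1⟫_ℝ = 0 → a.1 ≠ 0 →
      ⟪a.1, a.2⟫_ℝ / ‖a.1‖ ^ 2 = lam := by
    intro a ha ha0 hz
    have h3 := hlam _ ha ha0 _ (fst_mem_TS hwU (hR.Y_le hwU ha))
    rw [real_inner_comm, h3, real_inner_self_eq_norm_sq]
    have : ‖a.1‖ ^ 2 ≠ 0 := by positivity
    field_simp
  rw [hl a₁ ha₁ h10 hη1, hl a₂ ha₂ h20 hη2] at hEq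
  have p1 : 0 < ‖a₁.1‖ ^ 2 := by positivity
  have p2 : 0 < ‖a₂.1‖ ^ 2 := by positivity
  have hEq2 : Rm f w.1 w.2 a₁.1 a₁.1 / ‖a₁.1‖ ^ 2 = Rm f w.1 w.2 a₂.1 a₂.1 / ‖a₂.1‖ ^ 2 := by
    linarith
  rwa [div_eq_div_iff p1.ne' p2.ne'] at hEq2

/-- The projection onto the tangent vectors perpendicular to `q.2`. -/
noncomputable def pr (f : E → F) (q : E × E) (e : E) : E :=
  (e - Rinv (fderiv ℝ f q.1) (fderiv ℝ f q.1 e))
    - ⟪q.2, e - Rinv (fderiv ℝ f q.1) (fderiv ℝ f q.1 e)⟫_ℝ • q.2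

theorem pr_mem (h : GFlow F S A K K₂ Φ) {O : Set E} {f : E → F} (hf : IsLoc S O f) {w : E × E}
    (hw : w ∈ UT S) (hO : w.1 ∈ O) (e : E) : pr f w e ∈ ZT S w.1 ∧ ⟪w.2, pr f w e⟫_ℝ = 0 := by
  have hx : w.1 ∈ S := fst_mem_TSet hw.1
  have h1 : e - Rinv (fderiv ℝ f w.1) (fderiv ℝ f w.1 e) ∈ ZT S w.1 := by
    rw [mem_TS' hf hx hO, map_sub, comp_Rinv (hf.surj w.1 hO), sub_self]
  refine ⟨Submodule.sub_mem _ h1 (Submodule.smul_mem _ _ (snd_mem_TS h.sub hw)), ?_⟩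
  unfold pr
  rw [inner_sub_right, real_inner_smul_right, real_inner_self_eq_norm_sq, hw.2]
  ring

theorem pr_self {O : Set E} {f : E → F} (hf : IsLoc S O f) {w : E × E}
    (hw : w ∈ UT S) (hO : w.1 ∈ O) {e : E} (he : e ∈ ZT S w.1) (h0 : ⟪w.2, e⟫_ℝ = 0) :
    pr f w e = e := by
  have hx : w.1 ∈ S := fst_mem_TSet hw.1
  have h1 := (mem_TS' hf hx hO).1 he
  unfold pr
  rw [h1, map_zero, sub_zero, h0, zero_smul, sub_zero]

theorem continuousAt_pr {O : Set E} {f : E → F} (hf : IsLoc S O f) {w : E × E} (hO : w.1 ∈ O)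
    (e : E) : ContinuousAt (fun q : E × E => pr f q e) w := by
  have h1 : ContDiffAt ℝ ∞ f w.1 := hf.contDiffAt hO
  have h2 : ContDiffAt ℝ ∞ (fderiv ℝ f) w.1 := h1.fderiv_right (by norm_num)
  have h4 : ContinuousAt (fun q : E × E => fderiv ℝ f q.1) w :=
    ContinuousAt.comp (g := fderiv ℝ f) h2.continuousAt continuousAt_fst
  have h5 : ContinuousAt (fun q : E × E => Rinv (fderiv ℝ f q.1)) w :=
    ContinuousAt.comp (g := Rinv) (f := fun q : E × E => fderiv ℝ f q.1)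
      (contDiffAt_Rinv (n := ∞) (hf.surj w.1 hO)).continuousAt h4
  have h6 : ContinuousAt (fun q : E × E => e - Rinv (fderiv ℝ f q.1) (fderiv ℝ f q.1 e)) w :=
    continuousAt_const.sub (h5.clm_apply (h4.clm_apply continuousAt_const))
  exact h6.sub ((continuousAt_snd.inner h6).smul continuousAt_snd)

theorem continuousAt_II {O : Set E} {f : E → F} (hf : IsLoc S O f) {M : Type*} [TopologicalSpace M]
    {x₀ : M} {y a b : M → E} (hy : ContinuousAt y x₀) (ha : ContinuousAt a x₀)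
    (hb : ContinuousAt b x₀) (hO : y x₀ ∈ O) :
    ContinuousAt (fun x => II f (y x) (a x) (b x)) x₀ := by
  have h1 : ContDiffAt ℝ ∞ f (y x₀) := hf.contDiffAt hO
  have h2 : ContDiffAt ℝ ∞ (fderiv ℝ f) (y x₀) := h1.fderiv_right (by norm_num)
  have h3 : ContDiffAt ℝ ∞ (fderiv ℝ (fderiv ℝ f)) (y x₀) := h2.fderiv_right (by norm_num)
  have h4 : ContinuousAt (fun q => fderiv ℝ f (y q)) x₀ :=
    ContinuousAt.comp (g := fderiv ℝ f) h2.continuousAt hy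
  have h5 : ContinuousAt (fun q => Rinv (fderiv ℝ f (y q))) x₀ :=
    ContinuousAt.comp (g := Rinv) (f := fun q => fderiv ℝ f (y q))
      (contDiffAt_Rinv (n := ∞) (hf.surj (y x₀) hO)).continuousAt h4
  have h6 : ContinuousAt (fun q => fderiv ℝ (fderiv ℝ f) (y q)) x₀ :=
    ContinuousAt.comp (g := fderiv ℝ (fderiv ℝ f)) h3.continuousAt hy
  exact (h5.clm_apply ((h6.clm_apply ha).clm_apply hb)).neg

theorem scalar (h : GFlow F S A K K₂ Φ) (hdim : Module.finrank ℝ E = Module.finrank ℝ F + n)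
    (hD : ∀ w ∈ UT S, ∀ O ∈ 𝓝 w, ∃ w' ∈ O, Dpt Φ S w')
    {w : E × E} (hw : w ∈ UT S) {O : Set E} {f : E → F} (hf : IsLoc S O f) (hO : w.1 ∈ O)
    {η₁ η₂ : E} (h1 : η₁ ∈ ZT S w.1) (h2 : η₂ ∈ ZT S w.1) (h10 : ⟪w.2, η₁⟫_ℝ = 0)
    (h20 : ⟪w.2, η₂⟫_ℝ = 0) :
    Rm f w.1 w.2 η₁ η₁ * ‖η₂‖ ^ 2 = Rm f w.1 w.2 η₂ η₂ * ‖η₁‖ ^ 2 := by
  by_contra hcon
  set G : E × E → ℝ := fun q => Rm f q.1 q.2 (pr f q η₁) (pr f q η₁) * ‖pr f q η₂‖ ^ 2
    - Rm f q.1 q.2 (pr f q η₂) (pr f q η₂) * ‖pr f q η₁‖ ^ 2 with hG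
  have hRm : ∀ e : E, ContinuousAt (fun q : E × E => Rm f q.1 q.2 (pr f q e) (pr f q e)) w := by
    intro e
    have hp := continuousAt_pr hf hO e
    have c1 := continuousAt_II hf (y := fun q : E × E => q.1) (a := fun q : E × E => q.2)
      (b := fun q : E × E => q.2) continuousAt_fst continuousAt_snd continuousAt_snd hO
    have c2 := continuousAt_II hf (y := fun q : E × E => q.1) continuousAt_fst hp hp hO
    have c3 := continuousAt_II hf (y := fun q : E × E => q.1) (a := fun q : E × E => q.2)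
      continuousAt_fst continuousAt_snd hp hO
    exact (c1.inner c2).sub (c3.inner c3)
  have hGc : ContinuousAt G w :=
    ((hRm η₁).mul ((continuousAt_pr hf hO η₂).norm.pow 2)).sub
      ((hRm η₂).mul ((continuousAt_pr hf hO η₁).norm.pow 2))
  have hGw : G w ≠ 0 := by
    rw [hG]
    simp only [pr_self hf hw hO h1 h10, pr_self hf hw hO h2 h20]
    exact sub_ne_zero.2 hcon
  have hOn : ∀ᶠ q : E × E in 𝓝 w, q.1 ∈ O :=
    continuousAt_fst.eventually (hf.isOpen.mem_nhds hO)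
  obtain ⟨w', ⟨hw'G, hw'O⟩, hw'⟩ := hD w hw _ ((hGc.eventually_ne hGw).and hOn)
  have hw'U : w' ∈ UT S := hw'.1.1
  have hp1 := pr_mem h hf hw'U hw'O η₁
  have hp2 := pr_mem h hf hw'U hw'O η₂
  exact hw'G (sub_eq_zero.2 (scalar_Dpt h hdim hw' hf hw'O hp1.1 hp2.1 hp1.2 hp2.2))

/-- The sectional curvature depends on the point only. -/
theorem exists_PC (h : GFlow F S A K K₂ Φ) (hdim : Module.finrank ℝ E = Module.finrank ℝ F + n)
    (hn : 3 ≤ n) (hD : ∀ w ∈ UT S, ∀ O ∈ 𝓝 w, ∃ w' ∈ O, Dpt Φ S w') :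
    ∃ kap : E → ℝ, PC F S kap := by
  have key : ∀ x : E, ∃ k : ℝ, x ∈ S → ∀ (O : Set E) (f : E → F), IsLoc S O f → x ∈ O →
      ∀ u ∈ ZT S x, ∀ v ∈ ZT S x, ∀ v' ∈ ZT S x,
        Rm f x u v v' = k * (⟪u, u⟫_ℝ * ⟪v, v'⟫_ℝ - ⟪u, v⟫_ℝ * ⟪u, v'⟫_ℝ) := by
    intro x
    by_cases hx : x ∈ S
    · obtain ⟨O, hO, f, hf⟩ := h.sub x hx
      obtain ⟨k, hk⟩ := Pool.Agent.H27.S7.sc_const (T := ZT S x) (B := II f x)
        (by rw [finrank_TS hdim h.sub hx]; exact hn) (fun a a' b => IIs_add_left f x a a' b)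
        (fun c a b => by
          unfold II
          rw [map_smul, smul_apply, map_smul, smul_neg])
        (fun a b => II_symm hf hO a b)
        (fun u hu hu1 η₁ h1 η₂ h2 h10 h20 =>
          scalar h hdim hD (w := (x, u)) ⟨(mem_TS h.sub hx).1 hu, hu1⟩ hf hO h1 h2 h10 h20)
      refine ⟨k, fun _ O' g hg hO' u hu v hv v' hv' => ?_⟩
      rw [← hk u hu v hv v' hv']
      unfold Rm
      rw [II_indep h hg hf hx hO' hO hu hu, II_indep h hg hf hx hO' hO hv hv',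
        II_indep h hg hf hx hO' hO hu hv, II_indep h hg hf hx hO' hO hu hv']
    · exact ⟨0, fun hx' => absurd hx' hx⟩
  choose kap hkap using key
  exact ⟨kap, fun x hx => hkap x hx⟩

end Pool.Agent.H54.S7
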